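import Pool.Agent.helper84.LQ.SpecH

/-!
# MP_07c750 (quantum unique ergodicity), PROJECT LQ, row FCQ: the chain
-/

open scoped MatrixGroups ContDiff Topology UpperHalfPlane ComplexConjugate
open UpperHalfPlane MeasureTheory Filter Set

set_option autoImplicit false

namespace Pool.Agent.LP

open Pool.Agent.RS
open Pool.Agent.MS (bq BB BA SF pf)
open Pool.Agent.HV (FW)
open Pool.Agent.EN (XG MG mkX mkM fl pr)
open Pool.Agent.ER (Low LowJ)

noncomputable section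

/-- `FF` is monotone -/
theorem FCQ_mono (Γ : Subgroup SL(2, ℝ)) (μ : Measure (XG Γ)) (a η : ℝ) (G : ℕ) (E E' : Set (XG Γ)) [IsProbabilityMeasure μ] (hE : E ⊆ E') (h : FF Γ μ a η G E') : FF Γ μ a η G E := by
  intro δ hδ
  obtain ⟨C3, hC3, h1⟩ := h δ hδ
  refine ⟨C3, hC3, fun C1 Q hC1 hQ => ?_⟩
  obtain ⟨m0, h2⟩ := h1 C1 Q hC1 hQ
  refine ⟨m0, fun m hm => ?_⟩
  obtain ⟨Ψ, Ψa, Ψn, Ψl, hS, h01, hn, hl, hμ, hL⟩ := h2 m hm
  refine ⟨Ψ, Ψa, Ψn, Ψl, hS, h01, hn, hl, ?_, hL⟩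
  exact le_trans (measureReal_mono (diff_subset_diff_left hE)) hμ

/-- `CO` is monotone in the exponent -/
theorem FCQ_co (Γ : Subgroup SL(2, ℝ)) (μ : Measure (XG Γ)) (E : Set (XG Γ)) (ρ ρ' : ℝ) (hρ : ρ ≤ ρ') (h : CO Γ μ E ρ) : CO Γ μ E ρ' := by
  refine ⟨h.1, fun a η δ ha hη hδ => ?_⟩
  obtain ⟨n0, h1⟩ := h.2 a η δ ha hη hδ
  refine ⟨n0, fun n hn => ?_⟩
  obtain ⟨A, hA, hm⟩ := h1 n hn
  refine ⟨A, le_trans hA ?_, hm⟩
  have h2 : (0 : ℝ) ≤ (n : ℝ) := Nat.cast_nonneg _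
  exact Real.exp_le_exp.mpr (mul_le_mul_of_nonneg_right (by linarith) h2)

theorem FCQ_proof (hFGQ : FGQ_stmt) (hFTR : FTR_stmt) (hFUN : FUN_stmt) (hCOL : COL_stmt) : FCQ_stmt := by
  intro a h ha0 ha hh0 hh hah
  by_cases hc0 : a + h < 1
  · refine ⟨(1 - a - h) / 4, 1, by linarith, le_rfl, ?_⟩
    intro Γ μ E hΓ hμ hinv hCO
    exact hFTR Γ μ E a ((1 - a - h) / 4) h 1 hΓ hμ hinv ha0 (by linarith) le_rfl (by linarith) hCO
  have hah1 : 1 ≤ a + h := not_lt.mp hc0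
  have hapos : 0 < a := by linarith
  obtain ⟨κ, hκ⟩ : ∃ κ : ℝ, κ = 2 - 3 * a - h := ⟨_, rfl⟩
  have hκ0 : 0 < κ := by rw [hκ]; linarith
  obtain ⟨g, hg⟩ : ∃ g : ℝ, g = min (κ / 2) (1 / 4) := ⟨_, rfl⟩
  have hg0 : 0 < g := by rw [hg]; exact lt_min (by linarith) (by norm_num)
  have hgκ : g ≤ κ / 2 := by rw [hg]; exact min_le_left _ _
  have hg4 : g ≤ 1 / 4 := by rw [hg]; exact min_le_right _ _
  obtain ⟨ν, hν⟩ : ∃ ν : ℝ, ν = min κ (1 - 2 * a) := ⟨_, rfl⟩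
  have hν0 : 0 < ν := by rw [hν]; exact lt_min hκ0 (by linarith)
  have hνκ : ν ≤ κ := by rw [hν]; exact min_le_left _ _
  have hνa : ν ≤ 1 - 2 * a := by rw [hν]; exact min_le_right _ _
  obtain ⟨η, hη⟩ : ∃ η : ℝ, η = min (ν / 120) (min (a / 2) ((1 - h) / 2)) := ⟨_, rfl⟩
  have hη0 : 0 < η := by
    rw [hη]
    exact lt_min (by linarith) (lt_min (by linarith) (by linarith))
  have hη1 : η ≤ ν / 120 := by rw [hη]; exact min_le_left _ _
  have hη2 : η ≤ a / 2 := by rw [hη]; exact le_trans (min_le_right _ _) (min_le_left _ _)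
  have hη3 : η ≤ (1 - h) / 2 := by rw [hη]; exact le_trans (min_le_right _ _) (min_le_right _ _)
  obtain ⟨M, hM⟩ : ∃ M : ℕ, 192 / ν ≤ (M : ℝ) := exists_nat_ge _
  obtain ⟨G, hGdef⟩ : ∃ G : ℕ, G = 2 * (M + 1) := ⟨_, rfl⟩
  have hGeven : Even G := by rw [hGdef]; exact even_two_mul _
  have hG2 : 2 ≤ G := by omega
  have hGR : (192 : ℝ) / ν ≤ (G : ℝ) := by
    have h1 : (G : ℝ) = 2 * ((M : ℝ) + 1) := by rw [hGdef]; push_cast; ring
    have h2 : (0 : ℝ) ≤ (M : ℝ) := Nat.cast_nonneg _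
    rw [h1]; linarith
  have hGpos : (0 : ℝ) < (G : ℝ) := by
    have h1 : 0 < G := by omega
    exact_mod_cast h1
  have hG24 : 24 / (G : ℝ) ≤ ν / 8 := by
    rw [div_le_div_iff₀ hGpos (by norm_num)]
    have h1 : 192 ≤ (G : ℝ) * ν := (div_le_iff₀ hν0).mp hGR
    linarith
  have hG0 : 0 < 24 / (G : ℝ) := by positivity
  refine ⟨η, G, hη0, by omega, ?_⟩
  intro Γ μ E hΓ hμ hinv hCO
  haveI := hμ
  have split : ∀ (β : ℝ) (E : Set (XG Γ)), FF Γ μ a η G (E \ Low Γ μ β) → FF Γ μ a η G (Low Γ μ β) → FF Γ μ a η G E := by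
    intro β E h1 h2
    refine FCQ_mono Γ μ a η G E _ ?_ (hFUN Γ μ _ _ a η G hμ h1 h2)
    intro x hx
    by_cases hxL : x ∈ Low Γ μ β
    · exact Or.inr hxL
    · exact Or.inl ⟨hx, hxL⟩
  have key : ∀ k : ℕ, ∀ (β : ℝ) (E : Set (XG Γ)), 0 ≤ β → β ≤ h → β ≤ (1 - a) + k * g → CO Γ μ E β → FF Γ μ a η G E := by
    intro k
    induction k with
    | zero =>
      intro β E hβ0 hβh hβt hE
      have h1 : β ≤ 1 - a := by simpa using hβt
      have hE' : CO Γ μ E (1 - a) := FCQ_co Γ μ E β (1 - a) h1 hE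
      refine split (a + 13 * η + 24 / (G : ℝ)) E ?_ ?_
      · exact hFGQ Γ μ E a η (1 - a) (a + 13 * η + 24 / (G : ℝ)) G hΓ hμ hinv ha0 ha hη0 (by linarith) (by linarith) (by linarith) (by linarith)
          (by linarith) hGeven hG2 (by linarith) hE'
      · exact hFTR Γ μ _ a η (a + 13 * η + 24 / (G : ℝ)) G hΓ hμ hinv ha0 hη0 (by omega) (by linarith)
          (hCOL Γ μ (a + 13 * η + 24 / (G : ℝ)) hΓ hμ hinv (by linarith))
    | succ k ih =>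
      intro β E hβ0 hβh hβt hE
      by_cases hc : β ≤ (1 - a) + k * g
      · exact ih β E hβ0 hβh hc hE
      · have hc' : (1 - a) + k * g < β := not_le.mp hc
        have hk : (0 : ℝ) ≤ (k : ℝ) * g := mul_nonneg (Nat.cast_nonneg _) hg0.le
        have hβg : 0 ≤ β - g := by linarith
        have hβt' : β ≤ (1 - a) + ((k : ℝ) + 1) * g := by
          have h1 : ((k + 1 : ℕ) : ℝ) = (k : ℝ) + 1 := by push_cast; ring
          rw [h1] at hβt
          exact hβt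
        refine split (β - g) E ?_ ?_
        · exact hFGQ Γ μ E a η β (β - g) G hΓ hμ hinv ha0 ha hη0 hβ0 (by linarith) (by linarith) (by linarith) hβg hGeven hG2 (by linarith) hE
        · exact ih (β - g) _ hβg (by linarith) (by nlinarith) (hCOL Γ μ (β - g) hΓ hμ hinv hβg)
  obtain ⟨k, hk⟩ : ∃ k : ℕ, h / g ≤ (k : ℝ) := exists_nat_ge _
  have hk' : h ≤ (k : ℝ) * g := (div_le_iff₀ hg0).mp hk
  exact key k h E hh0 le_rfl (by linarith) hCO

end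

end Pool.Agent.LP
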