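import Pool.Agent.helper57.LQ.SpecC

/-! # Row lq:GKL -/

set_option autoImplicit false

open Finset PowerSeries

noncomputable section

namespace Pool.Agent.LQ

theorem GKL_add {V : Submodule (ZMod 2) FF} {x y : FF} (h : x + y ∈ V) (hy : y ∈ V) : x ∈ V := by
  have e : x = (x + y) + y := by rw [add_assoc, add_self_FF, add_zero]
  rw [e]
  exact V.add_mem h hy

theorem GKL_gen {i l : ℕ} (hi : Odd i) (h : i < l) : DD ^ i ∈ VV 2 DD l :=
  Submodule.subset_span ⟨i, h, Nat.coprime_two_right.2 hi, rfl⟩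

theorem GKL_map {A : Module.End (ZMod 2) FF} {l l' : ℕ}
    (h : ∀ i : ℕ, Odd i → i < l → A (DD ^ i) ∈ VV 2 DD l') :
    ∀ f ∈ VV 2 DD l, A f ∈ VV 2 DD l' := by
  intro f hf
  have h2 : VV 2 DD l ≤ (VV 2 DD l').comap A := by
    refine Submodule.span_le.2 ?_
    rintro _ ⟨i, hi, hN, rfl⟩
    exact h i (Nat.coprime_two_right.1 hN) hi
  exact h2 hf

theorem GKL_T3 (h : HT3_stmt) (l : ℕ) : ∀ f ∈ VV 2 DD (l + 2), T 3 f ∈ VV 2 DD l := by
  refine GKL_map fun i hi hil => ?_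
  refine GKL_add (VV_mono 2 DD (by omega) (h i hi)) ?_
  have h1 := Nat.odd_iff.1 hi
  split_ifs with h3
  · exact GKL_gen (Nat.odd_iff.2 (by omega)) (by omega)
  · exact zero_mem _

theorem GKL_T5 (h : HT5_stmt) (l : ℕ) : ∀ f ∈ VV 2 DD (l + 4), T 5 f ∈ VV 2 DD l := by
  refine GKL_map fun i hi hil => ?_
  refine GKL_add (VV_mono 2 DD (by omega) (h i hi)) ?_
  have h1 := Nat.odd_iff.1 hi
  split_ifs with h3
  · exact GKL_gen (Nat.odd_iff.2 (by omega)) (by omega)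
  · exact zero_mem _

theorem GKL_P3 (h : HT3_stmt) (l α : ℕ) (hα : α < 2) :
    (∀ f ∈ VV 2 DD (l + 2 * α), (T 3 ^ α) f ∈ VV 2 DD l) ∧
    (l % 4 = 1 → (T 3 ^ α) (DD ^ (l + 2 * α)) + DD ^ l ∈ VV 2 DD l) := by
  have hc : α = 0 ∨ α = 1 := by omega
  rcases hc with rfl | rfl
  · refine ⟨fun f hf => ?_, fun _ => ?_⟩
    · rw [pow_zero, Module.End.one_apply]
      exact hf
    · rw [pow_zero, Module.End.one_apply, Nat.mul_zero, Nat.add_zero, add_self_FF]
      exact zero_mem _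
  · refine ⟨fun f hf => ?_, fun hl => ?_⟩
    · rw [pow_one]
      exact GKL_T3 h l f hf
    · rw [pow_one, Nat.mul_one]
      have h2 := h (l + 2) (Nat.odd_iff.2 (by omega))
      rw [if_pos (by omega), Nat.add_sub_cancel] at h2
      exact h2

theorem GKL_P5 (h : HT5_stmt) (l α : ℕ) (hα : α < 2) :
    (∀ f ∈ VV 2 DD (l + 4 * α), (T 5 ^ α) f ∈ VV 2 DD l) ∧
    (l % 8 = 1 ∨ l % 8 = 3 → (T 5 ^ α) (DD ^ (l + 4 * α)) + DD ^ l ∈ VV 2 DD l) := by
  have hc : α = 0 ∨ α = 1 := by omega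
  rcases hc with rfl | rfl
  · refine ⟨fun f hf => ?_, fun _ => ?_⟩
    · rw [pow_zero, Module.End.one_apply]
      exact hf
    · rw [pow_zero, Module.End.one_apply, Nat.mul_zero, Nat.add_zero, add_self_FF]
      exact zero_mem _
  · refine ⟨fun f hf => ?_, fun hl => ?_⟩
    · rw [pow_one]
      exact GKL_T5 h l f hf
    · rw [pow_one, Nat.mul_one]
      have h2 := h (l + 4) (Nat.odd_iff.2 (by omega))
      rw [if_pos (by omega), Nat.add_sub_cancel] at h2
      exact h2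

theorem GKL_H (h3 : HT3_stmt) (h5 : HT5_stmt) (l α β : ℕ) (hα : α < 2) (hβ : β < 2) :
    (∀ f ∈ VV 2 DD (l + 2 * α + 4 * β), (T 3 ^ α * T 5 ^ β) f ∈ VV 2 DD l) ∧
    (l % 8 = 1 → (T 3 ^ α * T 5 ^ β) (DD ^ (l + 2 * α + 4 * β)) + DD ^ l ∈ VV 2 DD l) := by
  refine ⟨fun f hf => ?_, fun hl => ?_⟩
  · rw [Module.End.mul_apply]
    exact (GKL_P3 h3 l α hα).1 _ ((GKL_P5 h5 (l + 2 * α) β hβ).1 f hf)
  · rw [Module.End.mul_apply]
    have e1 := (GKL_P5 h5 (l + 2 * α) β hβ).2 (by omega)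
    have e2 := (GKL_P3 h3 l α hα).1 _ e1
    rw [map_add] at e2
    have e3 := (GKL_P3 h3 l α hα).2 (by omega)
    have e4 := (VV 2 DD l).add_mem e2 e3
    have e5 : (T 3 ^ α) ((T 5 ^ β) (DD ^ (l + 2 * α + 4 * β))) + (T 3 ^ α) (DD ^ (l + 2 * α)) +
        ((T 3 ^ α) (DD ^ (l + 2 * α)) + DD ^ l) =
        (T 3 ^ α) ((T 5 ^ β) (DD ^ (l + 2 * α + 4 * β))) + DD ^ l +
          ((T 3 ^ α) (DD ^ (l + 2 * α)) + (T 3 ^ α) (DD ^ (l + 2 * α))) := by ring
    rw [e5, add_self_FF, add_zero] at e4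
    exact e4

theorem GKL_fac (hcomm : T 3 * T 5 = T 5 * T 3) (a b α β : ℕ) :
    GG (2 * a + α) (2 * b + β) = GG a b * (GG a b * (T 3 ^ α * T 5 ^ β)) := by
  have c : Commute (T 3) (T 5) := hcomm
  have e1 : T 3 ^ α * (T 5 ^ b * T 5 ^ b) = (T 5 ^ b * T 5 ^ b) * T 3 ^ α :=
    (Commute.mul_right (c.pow_pow α b) (c.pow_pow α b)).eq
  have e2 : T 3 ^ a * T 5 ^ b = T 5 ^ b * T 3 ^ a := (c.pow_pow a b).eq
  unfold GG
  rw [pow_add, pow_add, two_mul, two_mul, pow_add, pow_add]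
  calc T 3 ^ a * T 3 ^ a * T 3 ^ α * (T 5 ^ b * T 5 ^ b * T 5 ^ β) =
      T 3 ^ a * T 3 ^ a * (T 3 ^ α * (T 5 ^ b * T 5 ^ b)) * T 5 ^ β := by simp only [mul_assoc]
    _ = T 3 ^ a * T 3 ^ a * ((T 5 ^ b * T 5 ^ b) * T 3 ^ α) * T 5 ^ β := by rw [e1]
    _ = T 3 ^ a * (T 3 ^ a * T 5 ^ b) * (T 5 ^ b * (T 3 ^ α * T 5 ^ β)) := by simp only [mul_assoc]
    _ = T 3 ^ a * (T 5 ^ b * T 3 ^ a) * (T 5 ^ b * (T 3 ^ α * T 5 ^ β)) := by rw [e2]
    _ = T 3 ^ a * T 5 ^ b * (T 3 ^ a * T 5 ^ b * (T 3 ^ α * T 5 ^ β)) := by simp only [mul_assoc]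

theorem GKL_V1 : ∀ f ∈ VV 2 DD 1, f = 0 := by
  intro f hf
  have h : VV 2 DD 1 ≤ ⊥ := by
    refine Submodule.span_le.2 ?_
    rintro _ ⟨i, hi, hN, rfl⟩
    have h0 : i = 0 := by omega
    subst h0
    exact absurd hN (by decide)
  exact (Submodule.mem_bot _).1 (h hf)

theorem GKL (hGN2 : GN2_stmt) (hALG : ALG_stmt) (hAF3 : AF3_stmt) (hSQR : SQR_stmt)
    (hAF2 : AF2_stmt) (hSDF : SDF_stmt) (hHT3 : HT3_stmt) (hHT5 : HT5_stmt) : GKL_stmt := by
  intro M hM
  have hG : Gen 2 DD := hGN2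
  have t3 : T 3 ∈ TT 2 := Submodule.subset_span ⟨3, by decide, rfl⟩
  have t5 : T 5 ∈ TT 2 := Submodule.subset_span ⟨5, by decide, rfl⟩
  have hcomm : T 3 * T 5 = T 5 * T 3 := ((hALG 2 (by norm_num)).2 _ t3 _ t5).2
  have hone := (hALG 2 (by norm_num)).1
  have hmul : ∀ A ∈ TT 2, ∀ B ∈ TT 2, A * B ∈ TT 2 :=
    fun A hA B hB => ((hALG 2 (by norm_num)).2 A hA B hB).1
  have hpow : ∀ A ∈ TT 2, ∀ n : ℕ, A ^ n ∈ TT 2 := by
    intro A hA n
    induction n with
    | zero => rw [pow_zero]; exact hone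
    | succ n ih => rw [pow_succ]; exact hmul _ ih _ hA
  have hGG : ∀ a b, GG a b ∈ TT 2 := fun a b => hmul _ (hpow _ t3 a) _ (hpow _ t5 b)
  intro a b
  induction hn : a + b using Nat.strong_induction_on generalizing a b with
  | _ n ih =>
    rcases Nat.eq_zero_or_pos n with h0 | hpos
    · obtain ⟨rfl, rfl⟩ : a = 0 ∧ b = 0 := by omega
      have h1 : nn 0 0 = 0 := by
        unfold nn
        rw [hSDF.1]
      have h2 : GG 0 0 = 1 := by
        unfold GG
        rw [pow_zero, pow_zero, mul_one]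
      rw [h1, h2]
      refine ⟨fun _ => ⟨fun f hf => ?_, ?_⟩, fun h8 f hf => ?_⟩
      · rw [Module.End.one_apply]
        exact GKL_V1 f hf
      · rw [Module.End.one_apply, Nat.add_zero, pow_one]
        exact hG.c1
      · have h9 : M = 0 := by omega
        subst h9
        rw [Module.End.one_apply]
        exact GKL_V1 f hf
    · obtain ⟨a', α, hα, rfl⟩ : ∃ a' α : ℕ, α < 2 ∧ a = 2 * a' + α :=
        ⟨a / 2, a % 2, by omega, by omega⟩
      obtain ⟨b', β, hβ, rfl⟩ : ∃ b' β : ℕ, β < 2 ∧ b = 2 * b' + β :=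
        ⟨b / 2, b % 2, by omega, by omega⟩
      have hih := ih (a' + b') (by omega) a' b' rfl
      have hsd : ∀ c γ : ℕ, γ < 2 → sd (2 * c + γ) = 4 * sd c + γ := by
        intro c γ hγ
        have hc : γ = 0 ∨ γ = 1 := by omega
        rcases hc with rfl | rfl
        · exact (hSDF.2.1 c).1
        · exact (hSDF.2.1 c).2
      obtain ⟨m', hm'⟩ : ∃ m' : ℕ, m' = sd a' + 2 * sd b' := ⟨_, rfl⟩
      have hn1 : nn a' b' = 2 * m' := by
        unfold nn
        omega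
      have hn2 : nn (2 * a' + α) (2 * b' + β) = 8 * m' + 2 * α + 4 * β := by
        unfold nn
        rw [hsd a' α hα, hsd b' β hβ]
        omega
      rw [hn1] at hih
      rw [hn2, GKL_fac hcomm]
      set G := GG a' b' with hGdef
      have hGm : G ∈ TT 2 := hGG a' b'
      have hHm : T 3 ^ α * T 5 ^ β ∈ TT 2 := hmul _ (hpow _ t3 α) _ (hpow _ t5 β)
      constructor
      · intro hlt
        have hlt' : m' < M := by omega
        obtain ⟨k1, k2⟩ := hih.1 (by omega)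
        have hsq := hSQR 2 DD hG (1 + 4 * (2 * m')) (1 + 2 * m') (hM.2 m' hlt'.le) G hGm k1
        have hH := GKL_H hHT3 hHT5 (1 + 4 * (2 * m')) α β hα hβ
        have e : 1 + (8 * m' + 2 * α + 4 * β) = 1 + 4 * (2 * m') + 2 * α + 4 * β := by ring
        rw [e]
        refine ⟨fun f hf => ?_, ?_⟩
        · rw [Module.End.mul_apply, Module.End.mul_apply]
          exact hsq _ (hH.1 f hf)
        · rw [Module.End.mul_apply, Module.End.mul_apply]
          have e1 := hsq _ (hH.2 (by omega))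
          rw [map_add, map_add] at e1
          have e2 : G (G ((T 3 ^ α * T 5 ^ β) (DD ^ (1 + 4 * (2 * m') + 2 * α + 4 * β)))) =
              G (G (DD ^ (1 + 4 * (2 * m')))) := by
            have e3 := congrArg (fun y => y + G (G (DD ^ (1 + 4 * (2 * m'))))) e1
            simp only [zero_add] at e3
            rw [add_assoc, add_self_FF, add_zero] at e3
            exact e3
          rw [e2, hAF2 2 (by norm_num) G hGm]
          have e4 := k1 _ (hM.1 m' hlt')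
          rw [map_add] at e4
          have e5 := congrArg (fun y => coeff 1 (y + G (DD ^ (1 + 2 * m')))) e4
          simp only [zero_add] at e5
          rw [add_assoc, add_self_FF, add_zero, k2] at e5
          exact e5
      · intro hge f hf
        have hge' : M ≤ m' := by omega
        have k1 : ∀ f ∈ VV 2 DD (1 + 2 * M), G f = 0 := by
          intro f hf
          rcases lt_or_ge (2 * m') (8 * M) with h | h
          · exact (hih.1 h).1 f (VV_mono 2 DD (by omega) hf)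
          · exact hih.2 h f (VV_mono 2 DD (by omega) hf)
        have hsq := hSQR 2 DD hG (1 + 4 * (2 * M)) (1 + 2 * M) (hM.2 M le_rfl) G hGm k1
        rw [Module.End.mul_apply, Module.End.mul_apply]
        have e : 1 + 8 * M = 1 + 4 * (2 * M) := by ring
        rw [e] at hf
        exact hsq _ (hAF3.2 2 DD hG _ hHm _ f hf)

end Pool.Agent.LQ
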